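import Mathlib
import Pool.Agent.TH705.DL.Trans

set_option autoImplicit false

/-!
# Montgomery's conjecture for almost all independent translations of the blocks of a set

The points of an arbitrary `1`-separated set are grouped into blocks, each contained in an interval
of length `L` (for instance `L = N`), and the blocks are moved independently by at most `h`.  For all
but a small proportion of the vectors of translations the inequality of Q1 holds for ALL coefficients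
simultaneously (translating the whole set does not change the statement of Q1).  No logarithm is
lost in the term with the number of points.
-/

namespace Pool.Agent.Results.MP_71ac24_nt.BlockTranslations

open Finset MeasureTheory Pool.Agent.TH705.AW Pool.Agent.TH705.DL
open scoped InnerProductSpace ENNReal

/-- `D(t) = ∑_{n ≤ N} a_n n^{it}` -/
noncomputable def D (N : ℕ) (a : ℕ → ℂ) (t : ℝ) : ℂ :=
  ∑ n ∈ Icc 1 N, a n * Complex.exp (Complex.I * (t : ℂ) * (Real.log (n : ℝ) : ℂ))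

theorem qf_smul' {V : Type*} [NormedAddCommGroup V] [InnerProductSpace ℂ V]
    (B : Module.End ℂ V) (c : ℂ) (v : V) : qf B (c • v) = ‖c‖ ^ 2 * qf B v := by
  unfold qf
  rw [map_smul, inner_smul_left, inner_smul_right, ← mul_assoc, Complex.conj_mul',
    ← Complex.ofReal_pow, Complex.re_ofReal_mul]

/-- the vector of a coefficient sequence -/
noncomputable def va (N : ℕ) (a : ℕ → ℂ) : VV N :=
  WithLp.toLp 2 (fun n : Icc 1 N => a n)

theorem ext0_va (N : ℕ) (a : ℕ → ℂ) (n : ℕ) (hn : n ∈ Icc 1 N) : ext0 (va N a) n = a n := by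
  unfold ext0
  rw [dif_pos hn]
  rfl

theorem norm_va (N : ℕ) (a : ℕ → ℂ) : ‖va N a‖ ^ 2 = ∑ n ∈ Icc 1 N, ‖a n‖ ^ 2 := by
  rw [← norm_ext0]
  exact sum_congr rfl fun n hn => by rw [ext0_va N a n hn]

theorem DP_va (N : ℕ) (a : ℕ → ℂ) (t : ℝ) : ‖DP N (ext0 (va N a)) t‖ = ‖D N a t‖ := by
  unfold DP D
  congr 1
  refine sum_congr rfl fun n hn => ?_
  rw [ext0_va N a n hn]
  rfl

/-- **Independent translations of blocks.**  Let `P_j` (`j` in a finite index set `ι`) be finite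
`1`-separated sets of reals, each contained in an interval of length `L ≥ 0`, with `R = ∑_j |P_j|`
points, and let `h, δ > 0`.  Outside a measurable set `E` of translation vectors `u ∈ [0,h]^ι` of
measure at most `δ h^|ι|` the following holds for ALL coefficients `a_1, …, a_N` simultaneously:

(a) `∑_j ∑_{t ∈ P_j} |D(t + u_j)|²` is at most
`((e - 1) (1 + 4 N (1 + log N) / h) R + (2 + log² N) (L + 1 + 4 N (1 + log N)) log (N/δ)) ∑ |a_n|²`;

(b) if `|a_n| ≤ 1` for all `n`, `L ≤ N` and `h ≥ 4 N (1 + log N)` (for instance the blocks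
`P_j = S ∩ [jN, (j+1)N)` of a `1`-separated `S ⊂ [0,T]`) then the inequality of Q1 holds:
`∑_j ∑_{t ∈ P_j} |D(t + u_j)|² ≤ (4 R + 18 (1 + log N)³ log (N/δ) N) N`. -/
theorem result {ι : Type*} [Fintype ι] (N : ℕ) (hN : 1 ≤ N) (P : ι → Finset ℝ)
    (hsep : ∀ j, ∀ t ∈ P j, ∀ t' ∈ P j, t ≠ t' → 1 ≤ |t - t'|) (L : ℝ) (hL : 0 ≤ L)
    (hlen : ∀ j, ∃ x : ℝ, ∀ t ∈ P j, x ≤ t ∧ t ≤ x + L)
    (h δ : ℝ) (hh : 0 < h) (hδ : 0 < δ) (hδ1 : δ ≤ 1) :
    ∃ E : Set (ι → ℝ), MeasurableSet E ∧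
      volume E ≤ ENNReal.ofReal (δ * h ^ Fintype.card ι) ∧
      ∀ u : ι → ℝ, (∀ j, u j ∈ Set.Icc 0 h) → u ∉ E → ∀ a : ℕ → ℂ,
        (∑ j, ∑ t ∈ P j, ‖D N a (t + u j)‖ ^ 2 ≤
          ((Real.exp 1 - 1) * (1 + 4 * N * (1 + Real.log N) / h) * (∑ j, ((P j).card : ℝ)) +
            (2 + Real.log N ^ 2) * (L + 1 + 4 * N * (1 + Real.log N)) * Real.log (N / δ)) *
            ∑ n ∈ Icc 1 N, ‖a n‖ ^ 2) ∧
        ((∀ n, ‖a n‖ ≤ 1) → L ≤ N → 4 * N * (1 + Real.log N) ≤ h →
          ∑ j, ∑ t ∈ P j, ‖D N a (t + u j)‖ ^ 2 ≤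
            (4 * (∑ j, ((P j).card : ℝ)) + 18 * (1 + Real.log N) ^ 3 * Real.log (N / δ) * N) * N) := by
  classical
  have hN1 : (1:ℝ) ≤ N := by exact_mod_cast hN
  have hN0 : (0:ℝ) < N := by linarith
  have hl : 0 ≤ Real.log N := Real.log_nonneg hN1
  set ℓ := Real.log N with hℓ
  set B : ℝ := (2 + ℓ ^ 2) * (L + 1 + 4 * N * (1 + ℓ)) with hB
  have hB0 : 0 < B := by positivity
  have he0 : 0 ≤ Real.exp 1 - 1 := by
    have := Real.add_one_le_exp 1
    linarith
  have he : Real.exp 1 - 1 ≤ 2 := by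
    have := Real.exp_one_lt_d9
    linarith
  set κ : ι → ℝ := fun j => (P j).card / B * (1 + 4 * N * (1 + ℓ) / h) with hκ
  have hκ0 : ∀ j, 0 ≤ κ j := fun j => by rw [hκ]; positivity
  have hfam : ∀ j, Fam h (κ j) (YY N B (P j)) := fun j =>
    YY_fam hN hB0 hh hL (P j) (hsep j) (hlen j) le_rfl
  set s : ℝ := (Real.exp 1 - 1) * ∑ j, κ j + Real.log (N / δ) with hs
  have htail := tail hh.le κ hκ0 (fun j => YY N B (P j)) hfam s
  have hq : (0:ℝ) < N / δ := by positivity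
  have hlogδ : 0 ≤ Real.log (N / δ) := by
    refine Real.log_nonneg ?_
    rw [le_div_iff₀ hδ]
    linarith
  set E₀ : Set (ι → ℝ) := {x : ι → ℝ | (∀ i, x i ∈ Set.Icc 0 h) ∧ ∃ v : VV N, ‖v‖ = 1 ∧
        s ≤ ∑ i, qf (YY N B (P i) (x i) : Module.End ℂ (VV N)) v} with hE₀
  refine ⟨toMeasurable volume E₀, measurableSet_toMeasurable _ _, ?_, ?_⟩
  · rw [measure_toMeasurable]
    refine htail.trans (le_of_eq ?_)
    congr 1
    have hfr : (Module.finrank ℂ (VV N) : ℝ) = N := by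
      rw [finrank_euclideanSpace, Fintype.card_coe, Nat.card_Icc]
      simp
    rw [hfr, hs, neg_add, Real.exp_add, Real.exp_neg (Real.log (N / δ)), Real.exp_log hq,
      Real.exp_neg]
    have := Real.exp_pos ((Real.exp 1 - 1) * ∑ j, κ j)
    field_simp
  · intro u hu huE a
    have huE₀ : u ∉ E₀ := fun hc => huE (subset_toMeasurable _ _ hc)
    have hall : ∀ v : VV N, ‖v‖ = 1 →
        ∑ i, qf (YY N B (P i) (u i) : Module.End ℂ (VV N)) v ≤ s := by
      intro v hv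
      by_contra hc
      exact huE₀ ⟨hu, v, hv, (not_le.1 hc).le⟩
    have hall' : ∀ v : VV N,
        ∑ i, qf (YY N B (P i) (u i) : Module.End ℂ (VV N)) v ≤ s * ‖v‖ ^ 2 := by
      intro v
      by_cases hv : v = 0
      · subst hv
        simp [qf]
      · have hv0 : ‖v‖ ≠ 0 := norm_ne_zero_iff.2 hv
        have hv1 : ‖((‖v‖⁻¹ : ℝ) : ℂ) • v‖ = 1 := by
          rw [norm_smul, Complex.norm_real, norm_inv, norm_norm, inv_mul_cancel₀ hv0]
        have h1 := hall _ hv1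
        simp only [qf_smul'] at h1
        rw [← Finset.mul_sum, Complex.norm_real, norm_inv, norm_norm, inv_pow,
          inv_mul_le_iff₀ (by positivity)] at h1
        linarith
    have h1 := hall' (va N a)
    simp only [YY_qf] at h1
    rw [← Finset.mul_sum, inv_mul_le_iff₀ hB0, norm_va N] at h1
    simp only [DP_va N] at h1
    set R : ℝ := ∑ j, ((P j).card : ℝ) with hR
    have hR0 : 0 ≤ R := sum_nonneg fun _ _ => by positivity
    have h2 : ∑ j, κ j = R / B * (1 + 4 * N * (1 + ℓ) / h) := by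
      rw [hκ, ← Finset.sum_mul, ← Finset.sum_div]
    have hBs : B * s = (Real.exp 1 - 1) * (1 + 4 * N * (1 + ℓ) / h) * R +
        B * Real.log (N / δ) := by
      rw [hs, h2]
      field_simp
    have hG0 : 0 ≤ ∑ n ∈ Icc 1 N, ‖a n‖ ^ 2 := sum_nonneg fun _ _ => by positivity
    have ha : ∑ j, ∑ t ∈ P j, ‖D N a (t + u j)‖ ^ 2 ≤
        ((Real.exp 1 - 1) * (1 + 4 * N * (1 + ℓ) / h) * R + B * Real.log (N / δ)) *
          ∑ n ∈ Icc 1 N, ‖a n‖ ^ 2 := by
      rw [← hBs]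
      refine h1.trans (le_of_eq ?_)
      ring
    refine ⟨ha, fun ha1 hLN hNh => ha.trans ?_⟩
    have hG : ∑ n ∈ Icc 1 N, ‖a n‖ ^ 2 ≤ N := by
      calc ∑ n ∈ Icc 1 N, ‖a n‖ ^ 2 ≤ ∑ n ∈ Icc 1 N, (1:ℝ) :=
            sum_le_sum fun n _ => pow_le_one₀ (norm_nonneg _) (ha1 n)
        _ = N := by simp
    have h3 : (Real.exp 1 - 1) * (1 + 4 * N * (1 + ℓ) / h) * R ≤ 4 * R := by
      have h4 : 4 * N * (1 + ℓ) / h ≤ 1 := by
        rw [div_le_one hh]; exact hNh
      have h5 : (Real.exp 1 - 1) * (1 + 4 * N * (1 + ℓ) / h) ≤ 2 * 2 :=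
        mul_le_mul he (by linarith) (by positivity) (by norm_num)
      calc _ ≤ 2 * 2 * R := mul_le_mul_of_nonneg_right h5 hR0
        _ = 4 * R := by ring
    have h6 : B ≤ 18 * (1 + ℓ) ^ 3 * N := by
      rw [hB]
      have h7 : 2 + ℓ ^ 2 ≤ 2 * (1 + ℓ) ^ 2 := by nlinarith
      have h8 : L + 1 + 4 * N * (1 + ℓ) ≤ 6 * N * (1 + ℓ) := by nlinarith
      calc (2 + ℓ ^ 2) * (L + 1 + 4 * N * (1 + ℓ)) ≤ (2 * (1 + ℓ) ^ 2) * (6 * N * (1 + ℓ)) :=
            mul_le_mul h7 h8 (by positivity) (by positivity)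
        _ = 12 * (1 + ℓ) ^ 3 * N := by ring
        _ ≤ 18 * (1 + ℓ) ^ 3 * N := by
            have : 0 ≤ (1 + ℓ) ^ 3 * N := by positivity
            nlinarith
    have h9 : B * Real.log (N / δ) ≤ 18 * (1 + ℓ) ^ 3 * Real.log (N / δ) * N := by
      calc B * Real.log (N / δ) ≤ 18 * (1 + ℓ) ^ 3 * N * Real.log (N / δ) :=
            mul_le_mul_of_nonneg_right h6 hlogδ
        _ = _ := by ring
    have h11 : 0 ≤ 18 * (1 + ℓ) ^ 3 := by positivity
    have h10 : 0 ≤ 4 * R + 18 * (1 + ℓ) ^ 3 * Real.log (N / δ) * N :=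
      add_nonneg (by linarith) (mul_nonneg (mul_nonneg h11 hlogδ) hN0.le)
    exact mul_le_mul (add_le_add h3 h9) hG hG0 h10

end Pool.Agent.Results.MP_71ac24_nt.BlockTranslations
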