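import Pool.Agent.W170.MV.Final

set_option autoImplicit false

/-!
# Montgomery's conjecture for clustered sets

If the `1`-separated set `S ⊂ [0,T]` is contained in a union of `K` intervals of length `H ≥ √T`,
then `∑_{t ∈ S} |D(t)|² ≤ C (1 + log N)³ (N + K (H + √(N H))) N`.  For `T ≤ N²` and `H = √T` the
inequality of Q1 follows as soon as `K ≤ √N / T^(1/4)`.
-/

namespace Pool.Agent.Results.MP_71ac24_nt.ClusteredSets

open Finset Pool.Agent.W170.MV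

/-- `D(t) = ∑_{n ≤ N} a_n n^{it}` -/
noncomputable def D (N : ℕ) (a : ℕ → ℂ) (t : ℝ) : ℂ :=
  ∑ n ∈ Icc 1 N, a n * Complex.exp (Complex.I * (t : ℂ) * (Real.log (n : ℝ) : ℂ))

/-- a set in `K` intervals of length `H` meets at most `2 K` cells -/
theorem cells_le {H : ℝ} (hH : 0 < H) (S : Finset ℝ) (x : Finset ℝ)
    (hx : ∀ t ∈ S, ∃ y ∈ x, y ≤ t ∧ t ≤ y + H) : (cells H S : ℝ) ≤ 2 * x.card := by
  classical
  have h1 : S.image (fun t => ⌊t / H⌋₊) ⊆
      x.image (fun y => ⌊y / H⌋₊) ∪ x.image (fun y => ⌊y / H + 1⌋₊) := by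
    intro k hk
    rw [mem_image] at hk
    obtain ⟨t, ht, rfl⟩ := hk
    obtain ⟨y, hy, h2, h3⟩ := hx t ht
    have h4 : y / H ≤ t / H := div_le_div_of_nonneg_right h2 hH.le
    have h5 : t / H ≤ y / H + 1 := by
      rw [div_le_iff₀ hH, add_mul, div_mul_cancel₀ _ hH.ne', one_mul]
      exact h3
    have h6 : ⌊y / H⌋₊ ≤ ⌊t / H⌋₊ := Nat.floor_le_floor h4
    have h7 : ⌊t / H⌋₊ ≤ ⌊y / H + 1⌋₊ := Nat.floor_le_floor h5
    have h8 : ⌊y / H + 1⌋₊ ≤ ⌊y / H⌋₊ + 1 := by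
      rcases le_total 0 (y / H) with h0 | h0
      · rw [Nat.floor_add_one h0]
      · have : ⌊y / H + 1⌋₊ ≤ ⌊(1 : ℝ)⌋₊ := Nat.floor_le_floor (by linarith)
        rw [Nat.floor_one] at this
        omega
    rw [mem_union, mem_image, mem_image]
    rcases Nat.lt_or_ge ⌊y / H⌋₊ ⌊t / H⌋₊ with h9 | h9
    · right
      exact ⟨y, hy, by omega⟩
    · left
      exact ⟨y, hy, by omega⟩
  have h2 : cells H S ≤ 2 * x.card := by
    unfold cells
    refine (card_le_card h1).trans ((card_union_le _ _).trans ?_)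
    have := card_image_le (s := x) (f := fun y => ⌊y / H⌋₊)
    have := card_image_le (s := x) (f := fun y => ⌊y / H + 1⌋₊)
    omega
  exact_mod_cast h2

/-- **Clustered sets.**  There is an absolute constant `C` such that for all `N ≥ 1`, all `|a_n| ≤ 1`,
all `T ≥ 0`, all `H ≥ 1` with `H² ≥ T` and all `1`-separated `S ⊂ [0,T]` contained in the union of the
`K` intervals `[y, y + H]`, `y ∈ x`, `K = |x|`:
(a) `∑_{t ∈ S} |D(t)|² ≤ C (1 + log N)³ (N + K (H + √(N H))) N`;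
(b) if `H ≤ N` and `K² H ≤ N` then (with no power `N^ε`) the inequality of Q1 holds:
`∑_{t ∈ S} |D(t)|² ≤ 3 C (1 + log N)³ N²`. -/
theorem result : ∃ C : ℝ, 0 < C ∧ ∀ (N : ℕ) (a : ℕ → ℂ) (T H : ℝ), 1 ≤ N → (∀ n, ‖a n‖ ≤ 1) →
    1 ≤ H → T ≤ H ^ 2 → ∀ S : Finset ℝ, (∀ t ∈ S, 0 ≤ t ∧ t ≤ T) →
      (∀ t ∈ S, ∀ u ∈ S, t ≠ u → 1 ≤ |t - u|) → ∀ x : Finset ℝ,
        (∀ t ∈ S, ∃ y ∈ x, y ≤ t ∧ t ≤ y + H) →
          (∑ t ∈ S, ‖D N a t‖ ^ 2 ≤
            C * (1 + Real.log N) ^ 3 * (N + x.card * (H + Real.sqrt (N * H))) * N) ∧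
          (H ≤ N → (x.card : ℝ) ^ 2 * H ≤ N →
            ∑ t ∈ S, ‖D N a t‖ ^ 2 ≤ 3 * C * (1 + Real.log N) ^ 3 * (N : ℝ) ^ 2) := by
  refine ⟨168 * C1, by have := C1_pos; positivity, ?_⟩
  intro N a T H hN ha hH hTH S hS hsep x hx
  have hN1 : (1 : ℝ) ≤ N := by exact_mod_cast hN
  have hN0 : (0 : ℝ) < N := by linarith
  have hH0 : 0 < H := by linarith
  have hl : 0 ≤ Real.log N := Real.log_nonneg hN1
  have hC := C1_pos
  have h1 := clustered_pos hH N hN a ha S (fun t ht => ⟨(hS t ht).1, (hS t ht).2.trans hTH⟩) hsep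
  have h2 := cells_le hH0 S x hx
  have hD : ∀ t : ℝ, ‖∑ n ∈ Icc 1 N, a n * Complex.exp (Complex.I * (t * Real.log n : ℝ))‖ =
      ‖D N a t‖ := by
    intro t
    unfold D
    congr 1
    refine sum_congr rfl fun n _ => ?_
    congr 2
    push_cast
    ring
  simp only [hD] at h1
  have hq : 0 ≤ H + Real.sqrt (N * H) := by positivity
  have ha' : ∑ t ∈ S, ‖D N a t‖ ^ 2 ≤
      168 * C1 * (1 + Real.log N) ^ 3 * (N + x.card * (H + Real.sqrt (N * H))) * N := by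
    refine h1.trans ?_
    have h3 : (N : ℝ) + cells H S * (H + Real.sqrt (N * H)) ≤
        2 * (N + x.card * (H + Real.sqrt (N * H))) := by
      have := mul_le_mul_of_nonneg_right h2 hq
      linarith
    calc 84 * C1 * (1 + Real.log N) ^ 3 * N * (N + cells H S * (H + Real.sqrt (N * H)))
        ≤ 84 * C1 * (1 + Real.log N) ^ 3 * N * (2 * (N + x.card * (H + Real.sqrt (N * H)))) :=
          mul_le_mul_of_nonneg_left h3 (by positivity)
      _ = _ := by ring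
  refine ⟨ha', fun hHN hK => ha'.trans ?_⟩
  have h4 : H ≤ Real.sqrt (N * H) := by
    refine Real.le_sqrt_of_sq_le ?_
    nlinarith
  have h5 : (x.card : ℝ) * Real.sqrt (N * H) ≤ N := by
    have h6 : ((x.card : ℝ) * Real.sqrt (N * H)) ^ 2 ≤ (N : ℝ) ^ 2 := by
      rw [mul_pow, Real.sq_sqrt (by positivity)]
      nlinarith
    exact le_of_sq_le_sq h6 hN0.le
  have h7 : (N : ℝ) + x.card * (H + Real.sqrt (N * H)) ≤ 3 * N := by
    have h8 : (x.card : ℝ) * H ≤ x.card * Real.sqrt (N * H) :=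
      mul_le_mul_of_nonneg_left h4 (Nat.cast_nonneg _)
    linarith
  calc 168 * C1 * (1 + Real.log N) ^ 3 * (N + x.card * (H + Real.sqrt (N * H))) * N
      ≤ 168 * C1 * (1 + Real.log N) ^ 3 * (3 * N) * N := by
        gcongr
    _ = 3 * (168 * C1) * (1 + Real.log N) ^ 3 * (N : ℝ) ^ 2 := by ring

end Pool.Agent.Results.MP_71ac24_nt.ClusteredSets
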