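import Pool.Agent.K7.H49.ML.Fin4
import Pool.Agent.K7.H49.ML.SepK
import Pool.Agent.K7.H21.ML_NSUM
import Pool.Agent.K7.H60.ML_ADJ
import Pool.Agent.K7.H63.ML_MINOR
import Pool.Agent.K7.H77.ML_COUNT

set_option autoImplicit false

/-!
# Montgomery's large values conjecture for generic linear images, in the essential range

`A` is an arbitrary finite set of integer vectors in any dimension `d`, whose coordinates differ by
at most `B`. For all `x` in the box `∏ [Λ_i, 2Λ_i]`, outside a set of relative measure `η`,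
the large sieve inequality of the quality of Montgomery's conjecture holds at the points
`x·a`, `a ∈ A`, for ALL coefficients, for polynomials supported on an arbitrary set `I`
of integers up to `N` with the number of elements of `I` in place of `N`, and with arbitrary twists
`c_a(n)`, `|c_a(n)| ≤ 1`, for instance shifts `c_a(n) = n^{i s_a}` and characters:

`∑_{a ∈ A} |∑_{n ∈ I} b_n c_a(n) n^{i x·a}|² ≤ K B^κ N^ε η^{-ε} (1 + N/Λ) (|I| + |A|) ∑_{n ∈ I} |b_n|²`.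

The `Λ_i` are any numbers at least `Λ`, and `Λ` is any number at least `N`:
the conjecture is open for `N < T ≤ N²`. For `A ⊆ {0,1}^d` this is the inequality of the question for
the sums of the subfamilies of a generic family of numbers `x_i ∈ [Λ_i, 2Λ_i]`.

Proof: the mean over `x` of the trace of the `k`-th power of the Gram matrix is a sum over
`(n_j) ∈ I^k`, `(a_j) ∈ A^k` of products of `d` kernels at the frequencies
`∑_j (a_{j-1} - a_j) log n_j`. If the `a_j - a_0` have rank `r`, then `r` of the frequencies and `r`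
of the `n_j` are connected by an integral matrix of nonzero determinant at most `r! B^r`, so that for
fixed other `n_j` the `r` frequencies are separated by `1/(r! B^r N)`; hence the sum over `(n_j)` is
at most `N^ε |I|^{k-r}` for `Λ ≥ N`. The number of `(a_j)` of rank `r` is at most
`|A|^{r+1}` times a constant (a new vector of the span has at most `(2B+1)^r` values).
-/

namespace Pool.Agent.Results.MP_71ac24_nt.GenericImages

open Finset MeasureTheory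

/-- The Dirichlet polynomial `∑_{n ∈ I} b_n n^{it}`. -/
noncomputable def D (I : Finset ℕ) (b : ℕ → ℂ) (t : ℝ) : ℂ :=
  ∑ n ∈ I, b n * Complex.exp (Complex.I * (t : ℂ) * (Real.log (n : ℝ) : ℂ))

/-- The real number `x·a`. -/
def dot {d : ℕ} (x : Fin d → ℝ) (a : Fin d → ℤ) : ℝ := ∑ i, (a i : ℝ) * x i

theorem general (ε : ℝ) (hε : 0 < ε) : ∃ (K : ℝ) (κ : ℕ), 1 ≤ K ∧
    ∀ N : ℕ, 1 ≤ N → ∀ I : Finset ℕ, (∀ n ∈ I, 1 ≤ n ∧ n ≤ N) → ∀ (d B : ℕ), 1 ≤ B →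
      ∀ (A : Finset (Fin d → ℤ)) (c : (Fin d → ℤ) → ℕ → ℂ) (Λ' : Fin d → ℝ) (Λ η : ℝ),
        (∀ a ∈ A, ∀ a' ∈ A, ∀ i, |a i - a' i| ≤ B) → (∀ a n, ‖c a n‖ ≤ 1) → 0 < Λ →
        (∀ i, Λ ≤ Λ' i) → 0 < η → η ≤ 1 →
        ∃ E : Set (Fin d → ℝ), MeasurableSet E ∧ volume E ≤ ENNReal.ofReal (η * ∏ i, Λ' i) ∧
          ∀ x : Fin d → ℝ, (∀ i, x i ∈ Set.Icc (Λ' i) (2 * Λ' i)) → x ∉ E → ∀ b : ℕ → ℂ,
            ∑ a ∈ A, ‖D I (fun n => b n * c a n) (dot x a)‖ ^ 2 ≤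
              K * (B : ℝ) ^ κ * (N : ℝ) ^ ε * η ^ (-ε) * (1 + N / Λ) * (I.card + A.card) *
                ∑ n ∈ I, ‖b n‖ ^ 2 := by
  obtain ⟨K, κ, hK, h⟩ := Pool.Agent.K7.H49.ML.clean4
    (Pool.Agent.K7.H21.ML.nsum Pool.Agent.K7.H49.ML.stSepK Pool.Agent.K7.H63.MLMINOR.stMinor
      Pool.Agent.K7.H60.ML.stAdj)
    Pool.Agent.K7.H77.MLCOUNT.stCount ε hε
  refine ⟨K, κ, hK, fun N hN I hI d B hB A c Λ' Λ η hA hc hΛ hΛ' hη hη1 => ?_⟩
  obtain ⟨E, hE1, hE2, hE3⟩ := h N hN I hI d B hB A c Λ' Λ η hA hc hΛ hΛ' hη hη1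
  refine ⟨E, hE1, hE2, fun x hx hxE b => ?_⟩
  have h1 := hE3 x hx hxE b
  simp only [D, dot, mul_assoc] at h1 ⊢
  exact h1

theorem result :
    (∀ ε : ℝ, 0 < ε → ∃ (K : ℝ) (κ : ℕ), 1 ≤ K ∧
      ∀ N : ℕ, 1 ≤ N → ∀ I : Finset ℕ, (∀ n ∈ I, 1 ≤ n ∧ n ≤ N) → ∀ (d B : ℕ), 1 ≤ B →
        ∀ (A : Finset (Fin d → ℤ)) (c : (Fin d → ℤ) → ℕ → ℂ) (Λ' : Fin d → ℝ) (Λ η : ℝ),
          (∀ a ∈ A, ∀ a' ∈ A, ∀ i, |a i - a' i| ≤ B) → (∀ a n, ‖c a n‖ ≤ 1) → 0 < Λ →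
          (∀ i, Λ ≤ Λ' i) → 0 < η → η ≤ 1 →
          ∃ E : Set (Fin d → ℝ), MeasurableSet E ∧ volume E ≤ ENNReal.ofReal (η * ∏ i, Λ' i) ∧
            ∀ x : Fin d → ℝ, (∀ i, x i ∈ Set.Icc (Λ' i) (2 * Λ' i)) → x ∉ E → ∀ b : ℕ → ℂ,
              ∑ a ∈ A, ‖D I (fun n => b n * c a n) (dot x a)‖ ^ 2 ≤
                K * (B : ℝ) ^ κ * (N : ℝ) ^ ε * η ^ (-ε) * (1 + N / Λ) * (I.card + A.card) *
                  ∑ n ∈ I, ‖b n‖ ^ 2) ∧
    (∀ ε C : ℝ, 0 < ε → 0 ≤ C → ∃ K : ℝ, ∀ N d : ℕ, 1 ≤ N →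
      ∀ Λ : Fin d → ℝ, (∀ i, (N : ℝ) ≤ Λ i) →
      ∀ A : Finset (Fin d → ℤ), (∀ a ∈ A, ∀ i, a i = 0 ∨ a i = 1) →
        ∃ E : Set (Fin d → ℝ), MeasurableSet E ∧
          volume E ≤ ENNReal.ofReal ((N : ℝ) ^ (-C) * ∏ i, Λ i) ∧
          ∀ x : Fin d → ℝ, (∀ i, x i ∈ Set.Icc (Λ i) (2 * Λ i)) → x ∉ E →
            (∀ a ∈ A, dot x a ∈ Set.Icc 0 (2 * ∑ i, Λ i)) ∧
            ∀ b : ℕ → ℂ, (∀ n, ‖b n‖ ≤ 1) →
              ∑ a ∈ A, ‖D (Finset.Icc 1 N) b (dot x a)‖ ^ 2 ≤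
                K * (N : ℝ) ^ ε * (N + A.card) * N) := by
  refine ⟨general, ?_⟩
  intro ε C hε hC
  obtain ⟨δ, hδ⟩ : ∃ δ : ℝ, δ = ε / (1 + C) := ⟨_, rfl⟩
  have hC1 : 0 < 1 + C := by linarith
  have hδ0 : 0 < δ := by rw [hδ]; positivity
  have hδε : δ + C * δ = ε := by rw [hδ]; field_simp
  obtain ⟨K, κ, hK, hmain⟩ := general δ hδ0
  refine ⟨2 * K, fun N d hN Λ hΛ A hA => ?_⟩
  have hNr : (1 : ℝ) ≤ N := by exact_mod_cast hN
  have hN0 : (0 : ℝ) < N := by linarith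
  have hη1 : (N : ℝ) ^ (-C) ≤ 1 := Real.rpow_le_one_of_one_le_of_nonpos hNr (by linarith)
  obtain ⟨E, hE1, hE2, hE3⟩ := hmain N hN (Finset.Icc 1 N) (fun n hn => mem_Icc.1 hn) d 1 le_rfl A
    (fun _ _ => 1) Λ N ((N : ℝ) ^ (-C)) (by
      intro a ha a' ha' i
      rcases hA a ha i with h | h <;> rcases hA a' ha' i with h' | h' <;> rw [h, h'] <;> norm_num)
    (fun _ _ => by simp) hN0 hΛ (Real.rpow_pos_of_pos (by linarith) _) hη1
  refine ⟨E, hE1, hE2, fun x hx hxE => ⟨fun a ha => ?_, fun b hb => ?_⟩⟩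
  · have h3 : ∀ i, 0 ≤ (a i : ℝ) * x i ∧ (a i : ℝ) * x i ≤ 2 * Λ i := by
      intro i
      have h4 := (hx i).1
      have h5 := (hx i).2
      have h6 := hΛ i
      rcases hA a ha i with h | h
      · rw [h]
        constructor
        · simp
        · push_cast
          linarith
      · rw [h]
        constructor
        · push_cast
          linarith
        · push_cast
          linarith
    unfold dot
    refine ⟨sum_nonneg fun i _ => (h3 i).1, ?_⟩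
    rw [mul_sum]
    exact sum_le_sum fun i _ => (h3 i).2
  have h3 := hE3 x hx hxE b
  simp only [mul_one] at h3
  refine h3.trans ?_
  have h5 : ∑ n ∈ Finset.Icc 1 N, ‖b n‖ ^ 2 ≤ N := by
    calc ∑ n ∈ Finset.Icc 1 N, ‖b n‖ ^ 2 ≤ ∑ n ∈ Finset.Icc 1 N, (1 : ℝ) :=
          sum_le_sum fun n _ => pow_le_one₀ (norm_nonneg _) (hb n)
      _ = N := by simp
  have h6 : 1 + (N : ℝ) / N = 2 := by
    rw [div_self hN0.ne']
    norm_num
  have h7 : ((N : ℝ) ^ (-C)) ^ (-δ) = (N : ℝ) ^ (C * δ) := by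
    rw [← Real.rpow_mul (by linarith)]
    congr 1
    ring
  have h8 : (N : ℝ) ^ δ * (N : ℝ) ^ (C * δ) = (N : ℝ) ^ ε := by
    rw [← Real.rpow_add (by linarith), hδε]
  rw [h6, h7, Nat.cast_one, one_pow, mul_one, Nat.card_Icc, Nat.add_sub_cancel]
  have h9 : 0 ≤ K * (N : ℝ) ^ δ * (N : ℝ) ^ (C * δ) := by positivity
  have h10 : 0 ≤ ∑ n ∈ Finset.Icc 1 N, ‖b n‖ ^ 2 := sum_nonneg fun _ _ => by positivity
  calc K * (N : ℝ) ^ δ * (N : ℝ) ^ (C * δ) * 2 * (N + A.card) *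
        ∑ n ∈ Finset.Icc 1 N, ‖b n‖ ^ 2
      ≤ K * (N : ℝ) ^ δ * (N : ℝ) ^ (C * δ) * 2 * (N + A.card) * N := by gcongr
    _ = 2 * K * ((N : ℝ) ^ δ * (N : ℝ) ^ (C * δ)) * (N + A.card) * N := by ring
    _ = 2 * K * (N : ℝ) ^ ε * (N + A.card) * N := by rw [h8]

end Pool.Agent.Results.MP_71ac24_nt.GenericImages
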